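import Mathlib
import Pool.Agent.H70.Collatz.Count

set_option autoImplicit false

namespace Pool.Agent.Results.MP_374ccb_nt.DensityOne

open Filter Topology

/-- The Collatz map. -/
def collatz (n : ℕ) : ℕ := if n % 2 = 0 then n / 2 else 3 * n + 1

/-- The orbit of `n` reaches `1`. -/
def Reaches (n : ℕ) : Prop := ∃ k : ℕ, collatz^[k] n = 1

/-- The total stopping time of `n`: the least `k` such that the `k`-th iterate of `n` is `1`
(it is `0` by convention if there is no such `k`). -/
noncomputable def T (n : ℕ) : ℕ := sInf {k : ℕ | collatz^[k] n = 1}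

/-- The difference `T (n + 1) - T n`. -/
noncomputable def a (n : ℕ) : ℤ := (T (n + 1) : ℤ) - (T n : ℤ)

/-- The number `m` is of the form `5 * x + 8 * y` with `x`, `y` nonnegative integers. -/
def Comb (m : ℕ) : Prop := ∃ x y : ℕ, m = 5 * x + 8 * y

/-- The assertion of Q1 fails at `n`. -/
def Violates (n : ℕ) : Prop :=
  Reaches n ∧ Reaches (n + 1) ∧ a n ≠ 1 ∧ a n ≠ 3 ∧ a n ≠ 6 ∧ ¬ Comb (a n).natAbs

/-- The set of `n ≥ 1` with property `B` has natural density zero. -/
def DensityZero (B : ℕ → Prop) : Prop :=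
  Tendsto (fun N : ℕ => (({n : ℕ | 1 ≤ n ∧ n ≤ N ∧ B n}.ncard : ℕ) : ℝ) / (N : ℝ)) atTop (𝓝 0)

lemma density_of {B : ℕ → Prop}
    (hB : ∀ n, B n → ¬ ∀ i, collatz^[i] n = 1 ↔ collatz^[i] (n + 1) = 1) : DensityZero B := by
  classical
  have h := Pool.Agent.H70.Collatz.density_zero B hB
  rw [DensityZero]
  refine h.congr fun N => ?_
  congr 2
  rw [← Set.ncard_coe_finset]
  congr 1
  ext n
  rw [Finset.mem_coe, Finset.mem_filter, Finset.mem_Icc, Set.mem_ofPred_eq, and_assoc]

lemma same {n : ℕ} (h : ∀ i, collatz^[i] n = 1 ↔ collatz^[i] (n + 1) = 1) :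
    (Reaches n ↔ Reaches (n + 1)) ∧ a n = 0 := by
  have hset : {k : ℕ | collatz^[k] n = 1} = {k : ℕ | collatz^[k] (n + 1) = 1} := by
    ext k
    exact h k
  refine ⟨exists_congr h, ?_⟩
  rw [a, T, T, hset, sub_self]

/-- For all `n ≥ 1` outside a set of natural density zero, the orbits of `n` and `n + 1` either
both reach `1`, at the same time, or both do not; so `a n = 0` whenever `a n` is defined. In
particular the set of `n` at which the assertion of Q1 fails has natural density zero. -/
theorem result :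
    DensityZero (fun n => ¬ ((Reaches n ↔ Reaches (n + 1)) ∧ a n = 0)) ∧
      DensityZero Violates := by
  constructor
  · exact density_of fun n hn h => hn (same h)
  · refine density_of fun n hn h => hn.2.2.2.2.2 ?_
    rw [(same h).2]
    exact ⟨0, 0, rfl⟩

end Pool.Agent.Results.MP_374ccb_nt.DensityOne
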