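import Mathlib
import Pool.Agent.H86.C.FinQ
import Pool.Agent.H86.Fin

/-!
# Collatz step differences are `{5,8}`-combinations

For consecutive integers `n`, `n + 1` with finite total stopping times, the difference
`a n = T (n + 1) - T n` is `1`, `3` or `6`, or `|a n| = 5 x + 8 y` with nonnegative integers `x`, `y`.

The proof shows `2 ^ E < 4 / 3 * 3 ^ O * x` for every `x` whose orbit reaches `1` with `E` halvings
and `O` tripling steps. Above `B = 243 * 2 ^ 28` this is a capacity bound: a potential function built
from the classes modulo `243 * 2 ^ k` shows that the sum of `1 / (3 y)` over the odd elements `y` of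
any orbit segment above `B` is less than `0.06168`, however long the segment is. Below `B` the orbits
are verified in the kernel, with the constant `1.2535`; and `1.2535 * exp 0.06168 < 4 / 3`.
-/

set_option autoImplicit false

namespace Pool.Agent.Results.MP_374ccb_nt.StoppingDifferences

/-- The Collatz map. -/
def collatz (n : ℕ) : ℕ := if n % 2 = 0 then n / 2 else 3 * n + 1

/-- The orbit of `n` reaches `1`. -/
def Reaches (n : ℕ) : Prop := ∃ k : ℕ, collatz^[k] n = 1

/-- The total stopping time of `n`: the least `k` such that the `k`-th iterate of `n` is `1`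
(it is `0` by convention if there is no such `k`). -/
noncomputable def T (n : ℕ) : ℕ := sInf {k : ℕ | collatz^[k] n = 1}

/-- The difference `T (n + 1) - T n`. -/
noncomputable def a (n : ℕ) : ℤ := (T (n + 1) : ℤ) - (T n : ℤ)

/-- The number `m` is of the form `5 * x + 8 * y` with `x`, `y` nonnegative integers. -/
def Comb (m : ℕ) : Prop := ∃ x y : ℕ, m = 5 * x + 8 * y

/-- If `T n` and `T (n + 1)` are finite and `a n` is not `1`, `3` or `6`, then `|a n|` is a
`{5,8}`-combination. -/
theorem result (n : ℕ) (hn : 1 ≤ n) (h : Reaches n) (h' : Reaches (n + 1))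
    (h1 : a n ≠ 1) (h3 : a n ≠ 3) (h6 : a n ≠ 6) : Comb (a n).natAbs :=
  H86C.FinQ.full (fun x N h0 h2 h4 => H86C.residue h0 h2 h4) hn h h' h1 h3 h6

end Pool.Agent.Results.MP_374ccb_nt.StoppingDifferences
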